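import Pool.Agent.PFC.StmtsB4b
import Mathlib.LinearAlgebra.GeneralLinearGroup.AlgEquiv

/-!
# Row QSN of squad PFC: Skolem-Noether for matrix algebras, closure of `Rz`
-/

open scoped BigOperators TensorProduct

noncomputable section

namespace Pool.Agent.PFC.H69

theorem qsn_inner {F A : Type} [Field F] [Ring A] [Algebra F A] (n : ℕ)
    (f : A ≃ₐ[F] Matrix (Fin n) (Fin n) F) (e : A ≃ₐ[F] A) :
    ∃ y : Aˣ, ∀ a, (y : A) * a = e a * y := by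
  let g : A ≃ₐ[F] Module.End F (Fin n → F) := f.trans Matrix.toLinAlgEquiv'
  obtain ⟨T, hT⟩ := AlgEquiv.eq_linearEquivConjAlgEquiv (g.symm.trans (e.trans g))
  have h1 : (T : (Fin n → F) →ₗ[F] (Fin n → F)) ∘ₗ (T.symm : (Fin n → F) →ₗ[F] (Fin n → F))
      = LinearMap.id := by
    ext x; simp
  have h2 : (T.symm : (Fin n → F) →ₗ[F] (Fin n → F)) ∘ₗ (T : (Fin n → F) →ₗ[F] (Fin n → F))
      = LinearMap.id := by
    ext x; simp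
  refine ⟨⟨g.symm (T : (Fin n → F) →ₗ[F] (Fin n → F)),
    g.symm (T.symm : (Fin n → F) →ₗ[F] (Fin n → F)), ?_, ?_⟩, ?_⟩
  · rw [← map_mul, Module.End.mul_eq_comp, h1]
    exact map_one g.symm
  · rw [← map_mul, Module.End.mul_eq_comp, h2]
    exact map_one g.symm
  · intro a
    have h3 : g (e a) = (T : (Fin n → F) →ₗ[F] (Fin n → F)) ∘ₗ g a ∘ₗ
        (T.symm : (Fin n → F) →ₗ[F] (Fin n → F)) := by
      have h4 := congrArg (fun φ : Module.End F (Fin n → F) ≃ₐ[F] Module.End F (Fin n → F) =>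
        φ (g a)) hT
      simp only [AlgEquiv.trans_apply, AlgEquiv.symm_apply_apply] at h4
      rw [h4]
      rfl
    show g.symm (T : (Fin n → F) →ₗ[F] (Fin n → F)) * a
      = e a * g.symm (T : (Fin n → F) →ₗ[F] (Fin n → F))
    apply g.injective
    rw [map_mul, map_mul, AlgEquiv.apply_symm_apply, h3]
    simp only [Module.End.mul_eq_comp, LinearMap.comp_assoc, h2, LinearMap.comp_id]

theorem qsn : QsnStmt := by
  intro F V _ _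
  refine ⟨?_, ?_, ?_, ?_⟩
  · rintro X σ ⟨n, _, ⟨f⟩⟩ ⟨e, he⟩
    obtain ⟨y, hy⟩ := qsn_inner n f e
    exact ⟨y, fun v => by rw [hy, he]⟩
  · intro X
    exact ⟨1, fun v => by simp⟩
  · rintro X σ τ ⟨y, hy⟩ ⟨z, hz⟩
    refine ⟨y * z, fun v => ?_⟩
    rw [Units.val_mul, mul_assoc, hz, ← mul_assoc, hy, mul_assoc]
    rfl
  · rintro X Y σ ⟨y, hy⟩ ⟨z, hz⟩
    refine ⟨⟨(y : X.A) ⊗ₜ[F] (z : Y.A), ((y⁻¹ : X.Aˣ) : X.A) ⊗ₜ[F] ((z⁻¹ : Y.Aˣ) : Y.A), ?_, ?_⟩, ?_⟩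
    · show ((y : X.A) ⊗ₜ[F] (z : Y.A)) * (((y⁻¹ : X.Aˣ) : X.A) ⊗ₜ[F] ((z⁻¹ : Y.Aˣ) : Y.A)) = 1
      rw [Algebra.TensorProduct.tmul_mul_tmul, Units.mul_inv, Units.mul_inv]
      rfl
    · show (((y⁻¹ : X.Aˣ) : X.A) ⊗ₜ[F] ((z⁻¹ : Y.Aˣ) : Y.A)) * ((y : X.A) ⊗ₜ[F] (z : Y.A)) = 1
      rw [Algebra.TensorProduct.tmul_mul_tmul, Units.inv_mul, Units.inv_mul]
      rfl
    · intro v
      show ((y : X.A) ⊗ₜ[F] (z : Y.A)) * (X.ι v ⊗ₜ[F] Y.ι v)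
        = (X.ι (σ v) ⊗ₜ[F] Y.ι (σ v)) * ((y : X.A) ⊗ₜ[F] (z : Y.A))
      rw [Algebra.TensorProduct.tmul_mul_tmul, Algebra.TensorProduct.tmul_mul_tmul, hy, hz]

end Pool.Agent.PFC.H69
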