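import Pool.Agent.PFC.StmtsB2

/-!
# Row ARC of squad PFC: assembly of the AR part
-/

noncomputable section

namespace Pool.Agent.PFC.B2.H69

open Pool.Agent.PFC.B1

theorem arc (cla : ClaStmt) (clb : ClbStmt) (fin : FinStmt) (inv : InvStmt) : ArcStmt := by
  intro F Γ A' H I J L _ _ _ _ _ _ _ _ _ _ _ _ _ c d sp nk l n S hHP hS hiso
  have key : ∀ i, ∃ (p : ℕ) (τ : Rp (PowerSeries F) A' L (Fin p → L))
      (T : Type) (_ : AddCommGroup T) (_ : Module L T) (_ : Module.Finite L T)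
      (τ0 : Rp (PowerSeries F) A' L T) (f : T →ₗ[L] (Fin (n i) → L)),
      Iso τ0 τ ∧ Irr τ0 ∧ Irr τ ∧ IsHom (τ0.res sp.j) (S i) f ∧ ¬ Nul nk (τ0.res sp.j) f := by
    intro i
    obtain ⟨T, i1, i2, i3, τ0, f, h1, h2, h3⟩ :=
      cla F Γ A' H I L (Fin (n i) → L) c sp nk (S i) (hS i)
    obtain ⟨p, τ, hτ⟩ := fin (PowerSeries F) A' L T τ0
    have h4 := inv (PowerSeries F) A' L T (Fin p → L) (Fin p → L) J τ0 τ τ hτ
    exact ⟨p, τ, T, i1, i2, i3, τ0, f, hτ, h1, h4.2.2.2.2.1 h1, h2, h3⟩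
  choose p τ T i1 i2 i3 τ0 f h1 h2 h3 h4 h5 using key
  refine ⟨p, τ, h3, ?_⟩
  intro i i' hii
  by_contra hne
  have hs : ¬ Iso (S i) (S i') := fun h => hne (hiso i i' h)
  -- the isomorphism of the original representations
  obtain ⟨e1, he1⟩ := h1 i
  obtain ⟨e2, he2⟩ := hii
  obtain ⟨e3, he3⟩ := (inv (PowerSeries F) A' L (T i') (Fin (p i') → L) (Fin (p i') → L) J
    (τ0 i') (τ i') (τ i') (h1 i')).1
  let e : T i ≃ₗ[L] T i' := (e1.trans e2).trans e3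
  have he : IsHom (τ0 i) (τ0 i') e.toLinearMap := by
    intro a x
    show e3 (e2 (e1 ((τ0 i).ρ a x))) = (τ0 i').ρ a (e3 (e2 (e1 x)))
    have a1 : e1 ((τ0 i).ρ a x) = (τ i).ρ a (e1 x) := he1 a x
    have a2 : e2 ((τ i).ρ a (e1 x)) = (τ i').ρ a (e2 (e1 x)) := he2 a (e1 x)
    have a3 : e3 ((τ i').ρ a (e2 (e1 x))) = (τ0 i').ρ a (e3 (e2 (e1 x))) := he3 a (e2 (e1 x))
    rw [a1, a2, a3]
  have hf : IsHom ((τ0 i).res sp.j) (S i') ((f i') ∘ₗ e.toLinearMap) := by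
    intro a x
    have b1 : e (((τ0 i).res sp.j).ρ a x) = ((τ0 i').res sp.j).ρ a (e x) := he (sp.j a) x
    show f i' (e (((τ0 i).res sp.j).ρ a x)) = (S i').ρ a (f i' (e x))
    rw [b1]
    exact h4 i' a (e x)
  have hnul := clb F Γ A' H I J L (T i) (Fin (n i) → L) (Fin (n i') → L) c d sp nk (τ0 i)
    (S i) (S i') (f i) ((f i') ∘ₗ e.toLinearMap) (hHP (T i) (τ0 i)) (h2 i) (hS i) (hS i') hs
    (h4 i) hf (h5 i)
  apply h5 i'
  intro t ht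
  have ht2 : ((τ0 i).res sp.j).ρ (nk.x ^ (nk.Q - 1)) (e.symm t) = 0 := by
    apply e.injective
    have b1 : e (((τ0 i).res sp.j).ρ (nk.x ^ (nk.Q - 1)) (e.symm t))
        = ((τ0 i').res sp.j).ρ (nk.x ^ (nk.Q - 1)) (e (e.symm t)) :=
      he (sp.j (nk.x ^ (nk.Q - 1))) (e.symm t)
    rw [b1, e.apply_symm_apply, ht, map_zero]
  have h6 := hnul (e.symm t) ht2
  have h7 : f i' (e (e.symm t)) = 0 := h6
  rwa [e.apply_symm_apply] at h7

end Pool.Agent.PFC.B2.H69
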