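import Pool.Agent.PFC.StmtsB4a

set_option autoImplicit false

/-!
Squad PFC, row TEM: Brauer quotients of tensor products.
-/

namespace Pool.Agent.PFC.H69

open MulAction TensorProduct

variable {F H M N : Type} [Field F] [Group H] [AddCommGroup M] [Module F M]
    [AddCommGroup N] [Module F N]

theorem tns_tmul (ρ : H →* (M →ₗ[F] M)) (σ : H →* (N →ₗ[F] N)) (h : H) (m : M) (n : N) :
    tns ρ σ h (m ⊗ₜ[F] n) = ρ h m ⊗ₜ[F] σ h n := rfl

/-- Contraction of the first factor with a functional. -/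
noncomputable def ctr (N : Type) [AddCommGroup N] [Module F N] (f : M →ₗ[F] F) :
    M ⊗[F] N →ₗ[F] N :=
  (TensorProduct.lid F N).toLinearMap ∘ₗ LinearMap.rTensor N f

theorem ctr_tmul (f : M →ₗ[F] F) (m : M) (n : N) : ctr N f (m ⊗ₜ[F] n) = f m • n := by
  simp [ctr]

theorem sum_frame {ρ : H →* (M →ₗ[F] M)} {Ω : Type} [Fintype Ω] [MulAction H Ω]
    {b : Ω → M} {c : Ω → (M →ₗ[F] F)} (hfr : IsFr ρ b c) (x : M ⊗[F] N) :
    ∑ ω, b ω ⊗ₜ[F] ctr N (c ω) x = x := by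
  induction x with
  | zero => simp
  | tmul m n =>
    have h1 : ∀ ω, b ω ⊗ₜ[F] ctr N (c ω) (m ⊗ₜ[F] n) = (c ω m • b ω) ⊗ₜ[F] n := by
      intro ω
      rw [ctr_tmul, TensorProduct.smul_tmul]
    rw [Finset.sum_congr rfl (fun ω _ => h1 ω), ← TensorProduct.sum_tmul, hfr.2.2 m]
  | add x y hx hy =>
    simp only [map_add, TensorProduct.tmul_add, Finset.sum_add_distrib]
    rw [hx, hy]

theorem ctr_equiv {ρ : H →* (M →ₗ[F] M)} (σ : H →* (N →ₗ[F] N)) {Ω : Type} [Fintype Ω]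
    [MulAction H Ω] {b : Ω → M} {c : Ω → (M →ₗ[F] F)} (hfr : IsFr ρ b c) (h : H) (ω : Ω)
    (x : M ⊗[F] N) : ctr N (c (h • ω)) (tns ρ σ h x) = σ h (ctr N (c ω) x) := by
  induction x with
  | zero => simp
  | tmul m n => rw [tns_tmul, ctr_tmul, ctr_tmul, hfr.2.1, map_smul]
  | add x y hx hy => simp only [map_add, hx, hy]

theorem ctr_Fx {ρ : H →* (M →ₗ[F] M)} (σ : H →* (N →ₗ[F] N)) {Ω : Type} [Fintype Ω]
    [MulAction H Ω] {b : Ω → M} {c : Ω → (M →ₗ[F] F)} (hfr : IsFr ρ b c) (P : Subgroup H)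
    {x : M ⊗[F] N} (hx : x ∈ Fx (tns ρ σ) P) (ω : Ω) (hω : ∀ h ∈ P, h • ω = ω) :
    ctr N (c ω) x ∈ Fx σ P := by
  intro h hh
  have h1 := ctr_equiv σ hfr h ω x
  rw [hω h hh, hx h hh] at h1
  exact h1.symm

/-- Contraction with a fixed functional maps the Brauer kernel to the Brauer kernel. -/
theorem ctr_BK {ρ : H →* (M →ₗ[F] M)} (σ : H →* (N →ₗ[F] N)) {Ω : Type} [Fintype Ω]
    [MulAction H Ω] {b : Ω → M} {c : Ω → (M →ₗ[F] F)} (hfr : IsFr ρ b c) (P : Subgroup H)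
    {x : M ⊗[F] N} (hx : x ∈ BK (tns ρ σ) P) (ω : Ω) (hω : ∀ h ∈ P, h • ω = ω) :
    ctr N (c ω) x ∈ BK σ P := by
  unfold BK at hx
  induction hx using Submodule.span_induction with
  | mem n hn =>
    obtain ⟨P', S, y, hlt, hS, hy, rfl⟩ := hn
    refine Submodule.subset_span ⟨P', S, ctr N (c ω) y, hlt, hS, ?_, ?_⟩
    · exact ctr_Fx σ hfr P' hy ω (fun h hh => hω h (hlt.le hh))
    · rw [map_sum]
      refine Finset.sum_congr rfl ?_
      intro s hs
      have h1 := ctr_equiv σ hfr s ω y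
      rw [hω s (hS.1 s hs)] at h1
      exact h1
  | zero =>
    rw [map_zero]
    exact Submodule.zero_mem _
  | add a b _ _ ha hb =>
    rw [map_add]
    exact Submodule.add_mem _ ha hb
  | smul r a _ ha =>
    rw [map_smul]
    exact Submodule.smul_mem _ _ ha

/-- A fixed vector times a vector of the Brauer kernel is in the Brauer kernel. -/
theorem tmul_BK {ρ : H →* (M →ₗ[F] M)} (σ : H →* (N →ₗ[F] N)) (P : Subgroup H) {m : M}
    (hm : m ∈ Fx ρ P) {n : N} (hn : n ∈ BK σ P) : m ⊗ₜ[F] n ∈ BK (tns ρ σ) P := by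
  unfold BK at hn
  induction hn using Submodule.span_induction with
  | mem n hn =>
    obtain ⟨P', S, y, hlt, hS, hy, rfl⟩ := hn
    refine Submodule.subset_span ⟨P', S, m ⊗ₜ[F] y, hlt, hS, ?_, ?_⟩
    · intro h hh
      rw [tns_tmul, hm h (hlt.le hh), hy h hh]
    · rw [TensorProduct.tmul_sum]
      refine Finset.sum_congr rfl ?_
      intro s hs
      rw [tns_tmul, hm s (hS.1 s hs)]
  | zero =>
    rw [TensorProduct.tmul_zero]
    exact Submodule.zero_mem _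
  | add a b _ _ ha hb =>
    rw [TensorProduct.tmul_add]
    exact Submodule.add_mem _ ha hb
  | smul r a _ ha =>
    rw [TensorProduct.tmul_smul]
    exact Submodule.smul_mem _ _ ha

/-- The orbit sum of a point which is not fixed lies in the Brauer kernel. -/
theorem orbit_BK' [Finite H] {ρ : H →* (M →ₗ[F] M)} (σ : H →* (N →ₗ[F] N)) {Ω : Type}
    [Fintype Ω] [MulAction H Ω]
    {b : Ω → M} {c : Ω → (M →ₗ[F] F)} (hfr : IsFr ρ b c) (P : Subgroup H)
    {m : M ⊗[F] N} (hm : m ∈ Fx (tns ρ σ) P) (T : Finset Ω)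
    (hT : ∀ ω ∈ T, ∀ h ∈ P, h • ω ∈ T) (hT2 : ∀ ω ∈ T, ¬ ∀ h ∈ P, h • ω = ω) :
    ∑ ω ∈ T, b ω ⊗ₜ[F] ctr N (c ω) m ∈ BK (tns ρ σ) P := by
  classical
  induction hn : T.card using Nat.strong_induction_on generalizing T with
  | _ n ih =>
    rcases T.eq_empty_or_nonempty with rfl | ⟨ω, hω⟩
    · rw [Finset.sum_empty]
      exact Submodule.zero_mem _
    · obtain ⟨S, hS, hinj, hsur⟩ := exTv P ω
      let O : Finset Ω := S.image (fun x => x • ω)
      have hO : O ⊆ T := by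
        intro y hy
        obtain ⟨x, hx, rfl⟩ := Finset.mem_image.1 hy
        exact hT ω hω x (hS.1 x hx)
      have hOst : ∀ y ∈ O, ∀ h ∈ P, h • y ∈ O := by
        intro y hy h hh
        obtain ⟨x, hx, rfl⟩ := Finset.mem_image.1 hy
        obtain ⟨z, hz, hz2⟩ := hsur (h * x) (P.mul_mem hh (hS.1 x hx))
        refine Finset.mem_image.2 ⟨z, hz, ?_⟩
        rw [hz2, mul_smul]
      have hωO : ω ∈ O := by
        obtain ⟨z, hz, hz2⟩ := hsur 1 P.one_mem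
        refine Finset.mem_image.2 ⟨z, hz, ?_⟩
        rw [hz2, one_smul]
      have hrest : ∑ ω ∈ T \ O, b ω ⊗ₜ[F] ctr N (c ω) m ∈ BK (tns ρ σ) P := by
        refine ih (T \ O).card ?_ (T \ O) ?_ ?_ rfl
        · rw [← hn]
          exact Finset.card_lt_card (Finset.sdiff_ssubset hO ⟨ω, hωO⟩)
        · intro y hy h hh
          rw [Finset.mem_sdiff] at hy ⊢
          refine ⟨hT y hy.1 h hh, fun hc => hy.2 ?_⟩
          have := hOst _ hc h⁻¹ (P.inv_mem hh)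
          rwa [inv_smul_smul] at this
        · intro y hy
          exact hT2 y (Finset.mem_sdiff.1 hy).1
      have horb : ∑ ω ∈ O, b ω ⊗ₜ[F] ctr N (c ω) m ∈ BK (tns ρ σ) P := by
        have h1 : ∑ ω ∈ O, b ω ⊗ₜ[F] ctr N (c ω) m =
            ∑ x ∈ S, tns ρ σ x (b ω ⊗ₜ[F] ctr N (c ω) m) := by
          rw [Finset.sum_image (by
            intro x hx y hy hxy
            exact hinj x hx y hy hxy)]
          refine Finset.sum_congr rfl ?_
          intro x hx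
          have h3 := ctr_equiv σ hfr x ω m
          rw [hm x (hS.1 x hx)] at h3
          rw [h3, hfr.1, tns_tmul]
        rw [h1]
        refine Submodule.subset_span ?_
        refine ⟨P ⊓ stabilizer H ω, S, b ω ⊗ₜ[F] ctr N (c ω) m, ?_, hS, ?_, rfl⟩
        · refine lt_of_le_of_ne inf_le_left ?_
          intro heq
          apply hT2 ω hω
          intro h hh
          have : h ∈ P ⊓ stabilizer H ω := by
            rw [heq]
            exact hh
          exact mem_stabilizer_iff.1 (Subgroup.mem_inf.1 this).2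
        · intro h hh
          have hP := (Subgroup.mem_inf.1 hh).1
          have hs := mem_stabilizer_iff.1 (Subgroup.mem_inf.1 hh).2
          have h3 := ctr_equiv σ hfr h ω m
          rw [hm h hP, hs] at h3
          rw [tns_tmul, ← hfr.1, hs, ← h3]
      rw [← Finset.sum_sdiff hO]
      exact Submodule.add_mem _ hrest horb

/-- A fixed vector is the sum over the fixed points, modulo the Brauer kernel. -/
theorem frame_sub' [Finite H] {ρ : H →* (M →ₗ[F] M)} (σ : H →* (N →ₗ[F] N)) {Ω : Type}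
    [Fintype Ω] [MulAction H Ω]
    {b : Ω → M} {c : Ω → (M →ₗ[F] F)} (hfr : IsFr ρ b c) (P : Subgroup H)
    {m : M ⊗[F] N} (hm : m ∈ Fx (tns ρ σ) P) :
    m - ∑ ω ∈ fp P Ω, b ω ⊗ₜ[F] ctr N (c ω) m ∈ BK (tns ρ σ) P := by
  classical
  have h1 : m - ∑ ω ∈ fp P Ω, b ω ⊗ₜ[F] ctr N (c ω) m =
      ∑ ω ∈ Finset.univ \ fp P Ω, b ω ⊗ₜ[F] ctr N (c ω) m := by
    have h2 := Finset.sum_sdiff (Finset.subset_univ (fp P Ω))
      (f := fun ω => b ω ⊗ₜ[F] ctr N (c ω) m)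
    rw [sum_frame hfr m] at h2
    exact sub_eq_of_eq_add h2.symm
  rw [h1]
  apply orbit_BK' σ hfr P hm
  · intro ω hω h hh
    rw [Finset.mem_sdiff] at hω ⊢
    refine ⟨Finset.mem_univ _, fun hc => hω.2 ?_⟩
    rw [mem_fp] at hc ⊢
    have h3 : ∀ k ∈ P, k • ω = ω := by
      intro k hk
      have h4 := hc (h * k * h⁻¹) (P.mul_mem (P.mul_mem hh hk) (P.inv_mem hh))
      rw [mul_smul, mul_smul, inv_smul_smul] at h4
      exact smul_left_cancel h h4
    exact h3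
  · intro ω hω hc
    exact (Finset.mem_sdiff.1 hω).2 ((mem_fp P Ω ω).2 hc)

/-- TEM. -/
theorem tem : TemStmt := by
  classical
  intro ℓ _ F H M N M' N' _ _ _ _ _ _ _ _ _ _ _ _ ρ σ X hPS P hP π π' hπ hπ'
  obtain ⟨Ω, _, _, b, c, hfr, -⟩ := hPS
  have hbFx : ∀ ω ∈ fp P Ω, b ω ∈ Fx ρ P := by
    intro ω hω h hh
    rw [← hfr.1, (mem_fp P Ω ω).1 hω h hh]
  let q : M ⊗[F] N →ₗ[F] M' ⊗[F] N' :=
    ∑ ω ∈ fp P Ω, (TensorProduct.mk F M' N' (π (b ω))) ∘ₗ π' ∘ₗ ctr N (c ω)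
  have hq : ∀ x, q x = ∑ ω ∈ fp P Ω, π (b ω) ⊗ₜ[F] π' (ctr N (c ω) x) := by
    intro x
    simp only [q, LinearMap.sum_apply, LinearMap.comp_apply, TensorProduct.mk_apply]
  have hpure : ∀ m ∈ Fx ρ P, ∀ n : N, q (m ⊗ₜ[F] n) = π m ⊗ₜ[F] π' n := by
    intro m hm n
    rw [hq]
    have h1 : ∀ ω ∈ fp P Ω, π (b ω) ⊗ₜ[F] π' (ctr N (c ω) (m ⊗ₜ[F] n)) =
        π (c ω m • b ω) ⊗ₜ[F] π' n := by
      intro ω _
      rw [ctr_tmul, map_smul, map_smul, TensorProduct.smul_tmul]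
    rw [Finset.sum_congr rfl h1, ← TensorProduct.sum_tmul, ← map_sum]
    have h2 := frame_sub hfr P hm
    have h3 : π (m - ∑ ω ∈ fp P Ω, c ω m • b ω) = 0 :=
      (hπ.1 _ (BK_le_Fx ρ P h2)).2 h2
    rw [map_sub, sub_eq_zero] at h3
    rw [← h3]
  have hker0 : ∀ x ∈ BK (tns ρ σ) P, q x = 0 := by
    intro x hx
    rw [hq]
    refine Finset.sum_eq_zero ?_
    intro ω hω
    have h1 := ctr_BK σ hfr P hx ω ((mem_fp P Ω ω).1 hω)
    rw [(hπ'.1 _ (BK_le_Fx σ P h1)).2 h1, TensorProduct.tmul_zero]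
  -- a section of π on the fixed vectors
  let π0 : Fx ρ P →ₗ[F] M' := π ∘ₗ (Fx ρ P).subtype
  have hsurj : Function.Surjective π0 := by
    intro m'
    obtain ⟨m, hm, hm2⟩ := hπ.2 m'
    exact ⟨⟨m, hm⟩, hm2⟩
  obtain ⟨s, hs⟩ := LinearMap.exists_rightInverse_of_surjective π0
    (LinearMap.range_eq_top.2 hsurj)
  have hs' : ∀ m' : M', π ((s m' : Fx ρ P) : M) = m' := by
    intro m'
    have := LinearMap.congr_fun hs m'
    exact this
  have hcb : ∀ ω ∈ fp P Ω, ∀ m ∈ Fx ρ P, c ω ((s (π m) : Fx ρ P) : M) = c ω m := by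
    intro ω hω m hm
    have h1 : ((s (π m) : Fx ρ P) : M) - m ∈ Fx ρ P := Submodule.sub_mem _ (s (π m)).2 hm
    have h2 : ((s (π m) : Fx ρ P) : M) - m ∈ BK ρ P := by
      rw [← hπ.1 _ h1, map_sub, hs', sub_self]
    have h3 := frame_BK hfr P hP h2 ω ((mem_fp P Ω ω).1 hω)
    rw [map_sub, sub_eq_zero] at h3
    exact h3
  have hker1 : ∀ x ∈ Fx (tns ρ σ) P, q x = 0 → x ∈ BK (tns ρ σ) P := by
    intro x hx hx0
    have hsub := frame_sub' σ hfr P hx
    have hkey : ∀ ω ∈ fp P Ω, ctr N (c ω) x ∈ BK σ P := by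
      intro ω hω
      have hωf := (mem_fp P Ω ω).1 hω
      rw [← hπ'.1 _ (ctr_Fx σ hfr P hx ω hωf)]
      have h1 := ctr_BK σ hfr P hsub ω hωf
      have h2 := (hπ'.1 _ (BK_le_Fx σ P h1)).2 h1
      rw [map_sub, map_sub, sub_eq_zero] at h2
      rw [h2]
      -- the functional c ω descends to M'
      let cb : M' →ₗ[F] F := c ω ∘ₗ (Fx ρ P).subtype ∘ₗ s
      have h3 : ctr N' cb (q x) = π' (ctr N (c ω) (∑ ω' ∈ fp P Ω, b ω' ⊗ₜ[F] ctr N (c ω') x)) := by
        rw [hq, map_sum, map_sum, map_sum]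
        refine Finset.sum_congr rfl ?_
        intro ω' hω'
        rw [ctr_tmul, ctr_tmul, map_smul]
        congr 1
        exact hcb ω hω (b ω') (hbFx ω' hω')
      rw [← h3, hx0, map_zero]
    have hz : ∑ ω ∈ fp P Ω, b ω ⊗ₜ[F] ctr N (c ω) x ∈ BK (tns ρ σ) P := by
      refine Submodule.sum_mem _ ?_
      intro ω hω
      exact tmul_BK σ P (hbFx ω hω) (hkey ω hω)
    have := Submodule.add_mem _ hsub hz
    rwa [sub_add_cancel] at this
  refine ⟨⟨q, ⟨fun x hx => ⟨hker1 x hx, hker0 x⟩, ?_⟩, fun m hm n _ => hpure m hm n⟩, ?_⟩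
  · intro z
    induction z with
    | zero => exact ⟨0, Submodule.zero_mem _, map_zero _⟩
    | tmul m' n' =>
      obtain ⟨m, hm, rfl⟩ := hπ.2 m'
      obtain ⟨n, hn, rfl⟩ := hπ'.2 n'
      refine ⟨m ⊗ₜ[F] n, ?_, hpure m hm n⟩
      intro h hh
      rw [tns_tmul, hm h hh, hn h hh]
    | add x y hx hy =>
      obtain ⟨a, ha, rfl⟩ := hx
      obtain ⟨d, hd, rfl⟩ := hy
      exact ⟨a + d, Submodule.add_mem _ ha hd, map_add _ _ _⟩
  · intro x hx
    refine ⟨∑ ω ∈ fp P Ω, b ω ⊗ₜ[F] ctr N (c ω) x, ?_, frame_sub' σ hfr P hx⟩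
    refine Submodule.sum_mem _ ?_
    intro ω hω
    exact Submodule.subset_span ⟨b ω, hbFx ω hω, ctr N (c ω) x,
      ctr_Fx σ hfr P hx ω ((mem_fp P Ω ω).1 hω), rfl⟩

end Pool.Agent.PFC.H69
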